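import Pool.Agent.H361R2.PP.Iface4
import Pool.Agent.H361R2.PP.Main3

/-! PP-RAT: large ratios of consecutive gaps. -/

set_option autoImplicit false

open Finset

namespace Pool.Agent.H30R2.PP

open Pool.Agent.H361R2.PP

theorem P_mono : StrictMono P := Nat.nth_strictMono Nat.infinite_setOfPred_prime

theorem P_prime (j : ℕ) : (P j).Prime := Nat.prime_nth_prime j

theorem P_count {q : ℕ} (hq : q.Prime) : P (Nat.count Nat.Prime q) = q := Nat.nth_count hq

/-- the next prime is the prime with the next index -/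
theorem P_succ_le {j q : ℕ} (hq : q.Prime) (h : P j < q) : P (j + 1) ≤ q := by
  rw [← P_count hq] at h ⊢
  exact P_mono.monotone (P_mono.lt_iff_lt.1 h)

/-- from the class of good integers to the data of a cluster -/
theorem cluster_data {α ε Λ : ℝ} {X n : ℕ} (hG : Good (k := 1) 2 (fun _ => α) ε Λ X n) :
    ∃ A : Finset ℕ, 2 ≤ A.card ∧ (∀ a ∈ A, 1 ≤ a ∧ a ≤ ⌊Λ * Real.log X⌋₊ ∧
      CL α ε (Real.log X) a ∧ (n + a).Prime) ∧
      ∀ p : ℕ, p.Prime → n < p → p ≤ n + ⌊Λ * Real.log X⌋₊ → p - n ∈ A := by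
  classical
  obtain ⟨hG1, hG2⟩ := hG
  set A := (Icc 1 ⌊Λ * Real.log X⌋₊).filter
    (fun a => CL α ε (Real.log X) a ∧ (n + a).Prime) with hA
  refine ⟨A, ?_, ?_, ?_⟩
  · have h1 : ((univ : Finset (Fin 1)).filter (fun _ => 2 ≤ A.card)).Nonempty := by
      rw [nonempty_iff_ne_empty]
      intro h2
      have h3 : (1 : ℕ) ≤ 4 * ((univ : Finset (Fin 1)).filter (fun _ => 2 ≤ A.card)).card := by
        convert hG1 using 3
      rw [h2] at h3
      simp at h3
    obtain ⟨i, hi⟩ := h1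
    rw [mem_filter] at hi
    exact hi.2
  · intro a ha
    rw [hA, mem_filter, mem_Icc] at ha
    exact ⟨ha.1.1, ha.1.2, ha.2.1, ha.2.2⟩
  · intro p hp h1 h2
    have hpn : n + (p - n) = p := by omega
    have hmem : p - n ∈ Icc 1 ⌊Λ * Real.log X⌋₊ := by
      rw [mem_Icc]; omega
    obtain ⟨_, hcl⟩ := hG2 (p - n) hmem (by rw [hpn]; exact hp)
    rw [hA, mem_filter]
    exact ⟨hmem, hcl, by rw [hpn]; exact hp⟩

/-- property of part 1 -/
def R1 (K : ℝ) (j : ℕ) : Prop :=
    K * ((P (j + 1) : ℝ) - P j) ≤ (P (j + 2) : ℝ) - P (j + 1) ∧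
    K * Real.log (P j) ≤ (P (j + 2) : ℝ) - P (j + 1)

/-- property of part 2 -/
def R2 (K : ℝ) (j : ℕ) : Prop :=
    K * ((P (j + 2) : ℝ) - P (j + 1)) ≤ (P (j + 1) : ℝ) - P j ∧
    K * Real.log (P j) ≤ (P (j + 1) : ℝ) - P j

section good

variable {K : ℝ} {X n : ℕ} (hK : 1 ≤ K) (hn : X ≤ n) (hn2 : n < 2 * X)
  (hX : (2 * K + 3) * Real.log X ≤ X) (hL : K * Real.log 3 ≤ Real.log X) (hX2 : 3 ≤ X)
  (hG : Good (k := 1) 2 (fun _ => K + 1) 1 (2 * K + 3) X n)

include hK hn hn2 hX hL hX2 hG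

theorem log_bd {p : ℕ} (hp0 : 0 < p) (hp : (p : ℝ) ≤ 3 * X) :
    K * Real.log p ≤ (K + 1) * Real.log X := by
  have hXpos : (0 : ℝ) < X := by
    have : 0 < X := by omega
    exact_mod_cast this
  have hp1 : (0 : ℝ) < p := by exact_mod_cast hp0
  have h1 := Real.log_le_log hp1 hp
  rw [Real.log_mul (by norm_num) hXpos.ne'] at h1
  have h2 := mul_le_mul_of_nonneg_left h1 (by linarith : (0 : ℝ) ≤ K)
  linarith

theorem part1 : ∃ a ∈ Icc 1 ⌊(2 * K + 3) * Real.log X⌋₊, (n + a).Prime ∧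
    ∃ j, P j = n + a ∧ R1 K j := by
  classical
  obtain ⟨A, hA2, hA, hall⟩ := cluster_data hG
  have hLpos : 0 < Real.log X := Real.log_pos (by
    have : 1 < X := by omega
    exact_mod_cast this)
  set L := Real.log X with hLdef
  set N := ⌊(2 * K + 3) * L⌋₊ with hN
  have hAne : A.Nonempty := card_pos.1 (by omega)
  set a' := A.max' hAne with ha'
  have ha'A : a' ∈ A := A.max'_mem hAne
  have hBne : (A.erase a').Nonempty := by
    rw [← card_pos, card_erase_of_mem ha'A]; omega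
  set a := (A.erase a').max' hBne with ha
  have haB : a ∈ A.erase a' := (A.erase a').max'_mem hBne
  have haA : a ∈ A := mem_of_mem_erase haB
  have haa : a < a' := lt_of_le_of_ne (A.le_max' a haA) (ne_of_mem_erase haB)
  obtain ⟨h1, h2, h3, h4⟩ := hA a haA
  obtain ⟨h1', h2', h3', h4'⟩ := hA a' ha'A
  have hNle : (N : ℝ) ≤ (2 * K + 3) * L := Nat.floor_le (by positivity)
  have hNlt : (2 * K + 3) * L < N + 1 := Nat.lt_floor_add_one _
  obtain ⟨j, hj⟩ : ∃ j, j = Nat.count Nat.Prime (n + a) := ⟨_, rfl⟩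
  have hPj : P j = n + a := by rw [hj]; exact P_count h4
  have hPj1 : P (j + 1) = n + a' := by
    apply le_antisymm
    · exact P_succ_le h4' (by rw [hPj]; omega)
    · have h5 : P j < P (j + 1) := P_mono (Nat.lt_succ_self j)
      by_contra hcon
      push Not at hcon
      have h6 := hall (P (j + 1)) (P_prime _) (by omega) (by omega)
      have h7 : P (j + 1) - n ∈ A.erase a' := mem_erase.2 ⟨by omega, h6⟩
      have h8 := (A.erase a').le_max' _ h7
      omega
  have hPj2 : n + N < P (j + 2) := by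
    have h5 : P (j + 1) < P (j + 2) := P_mono (Nat.lt_succ_self _)
    by_contra hcon
    push Not at hcon
    have h6 := hall (P (j + 2)) (P_prime _) (by omega) (by omega)
    have h8 := A.le_max' _ h6
    omega
  refine ⟨a, mem_Icc.2 ⟨h1, h2⟩, h4, j, hPj, ?_⟩
  have e1 : ((P j : ℕ) : ℝ) = n + a := by rw [hPj]; push_cast; ring
  have e2 : ((P (j + 1) : ℕ) : ℝ) = n + a' := by rw [hPj1]; push_cast; ring
  have e3 : (n : ℝ) + N + 1 ≤ ((P (j + 2) : ℕ) : ℝ) := by exact_mod_cast hPj2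
  have hgap : (K + 1) * L ≤ (P (j + 2) : ℝ) - P (j + 1) := by
    have := h3'.2
    rw [e2]
    linarith
  constructor
  · refine le_trans ?_ hgap
    have h5 : (P (j + 1) : ℝ) - P j ≤ L := by
      rw [e1, e2]
      have := h3'.2
      have := h3.1
      linarith
    have h6 := mul_le_mul_of_nonneg_left h5 (by linarith : (0 : ℝ) ≤ K)
    linarith
  · refine le_trans ?_ hgap
    apply log_bd hK hn hn2 hX hL hX2 hG (by rw [hPj]; omega)
    rw [e1]
    have h5 : (a : ℝ) ≤ N := by exact_mod_cast h2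
    have h6 : (n : ℝ) ≤ 2 * X := by exact_mod_cast hn2.le
    linarith

theorem part2 : ∃ a ∈ Icc 1 ⌊(2 * K + 3) * Real.log X⌋₊, (n + a).Prime ∧
    ∃ i, P (i + 1) = n + a ∧ R2 K i := by
  classical
  obtain ⟨A, hA2, hA, hall⟩ := cluster_data hG
  have hLpos : 0 < Real.log X := Real.log_pos (by
    have : 1 < X := by omega
    exact_mod_cast this)
  set L := Real.log X with hLdef
  set N := ⌊(2 * K + 3) * L⌋₊ with hN
  have hAne : A.Nonempty := card_pos.1 (by omega)
  set a := A.min' hAne with ha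
  have haA : a ∈ A := A.min'_mem hAne
  have hBne : (A.erase a).Nonempty := by
    rw [← card_pos, card_erase_of_mem haA]; omega
  obtain ⟨a', ha'B⟩ := hBne
  have ha'A : a' ∈ A := mem_of_mem_erase ha'B
  have haa : a < a' := lt_of_le_of_ne (A.min'_le a' ha'A) (ne_of_mem_erase ha'B).symm
  obtain ⟨h1, h2, h3, h4⟩ := hA a haA
  obtain ⟨h1', h2', h3', h4'⟩ := hA a' ha'A
  have hNle : (N : ℝ) ≤ (2 * K + 3) * L := Nat.floor_le (by positivity)
  obtain ⟨j, hj⟩ : ∃ j, j = Nat.count Nat.Prime (n + a) := ⟨_, rfl⟩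
  have hPj : P j = n + a := by rw [hj]; exact P_count h4
  have hj0 : j ≠ 0 := by
    rintro rfl
    have h5 : P 0 = 2 := Nat.nth_prime_zero_eq_two
    omega
  obtain ⟨i, rfl⟩ := Nat.exists_eq_succ_of_ne_zero hj0
  have hPj' : P (i + 1) = n + a := hPj
  have hPi : P i ≤ n := by
    have h5 : P i < P (i + 1) := P_mono (Nat.lt_succ_self i)
    by_contra hcon
    push Not at hcon
    have h6 := hall (P i) (P_prime _) (by omega) (by omega)
    have h7 := A.min'_le _ h6
    omega
  have hPi2 : P (i + 2) ≤ n + a' := P_succ_le h4' (by rw [hPj']; omega)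
  refine ⟨a, mem_Icc.2 ⟨h1, h2⟩, h4, i, hPj', ?_⟩
  have e1 : ((P (i + 1) : ℕ) : ℝ) = n + a := by rw [hPj']; push_cast; ring
  have e2 : ((P (i + 2) : ℕ) : ℝ) ≤ n + a' := by exact_mod_cast hPi2
  have e3 : ((P i : ℕ) : ℝ) ≤ n := by exact_mod_cast hPi
  have hgap : (K + 1) * L ≤ (P (i + 1) : ℝ) - P i := by
    have := h3.1
    rw [e1]
    linarith
  constructor
  · refine le_trans ?_ hgap
    have h5 : (P (i + 2) : ℝ) - P (i + 1) ≤ L := by
      rw [e1]
      have := h3'.2
      have := h3.1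
      linarith
    have h6 := mul_le_mul_of_nonneg_left h5 (by linarith : (0 : ℝ) ≤ K)
    linarith
  · refine le_trans ?_ hgap
    apply log_bd hK hn hn2 hX hL hX2 hG ((P_prime i).pos)
    have h6 : (n : ℝ) ≤ 2 * X := by exact_mod_cast hn2.le
    have h7 : (0 : ℝ) ≤ X := Nat.cast_nonneg X
    linarith

end good

/-- large `X` -/
theorem ev_large (K : ℝ) : ∃ X₀ : ℕ, ∀ X : ℕ, X₀ ≤ X →
    (2 * K + 3) * Real.log X ≤ X ∧ K * Real.log 3 ≤ Real.log X ∧ 3 ≤ X := by
  have h1 : Filter.Tendsto (fun X : ℕ => Real.log (X : ℝ)) Filter.atTop Filter.atTop :=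
    Real.tendsto_log_atTop.comp tendsto_natCast_atTop_atTop
  have h2 : ∀ᶠ X : ℕ in Filter.atTop, K * Real.log 3 ≤ Real.log X :=
    h1.eventually_ge_atTop _
  have h3 : ∀ᶠ X : ℕ in Filter.atTop, (2 * K + 3) * Real.log X ≤ X := by
    have h4 := Real.isLittleO_log_id_atTop.comp_tendsto tendsto_natCast_atTop_atTop
    have h5 := h4.def (c := 1 / (|2 * K + 3| + 1)) (by positivity)
    filter_upwards [h5, Filter.eventually_ge_atTop 3] with X hX hX3
    simp only [Function.comp_apply, id, Real.norm_eq_abs] at hX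
    have h6 : (0 : ℝ) ≤ X := Nat.cast_nonneg X
    rw [abs_of_nonneg h6] at hX
    have h7 : (0 : ℝ) < |2 * K + 3| + 1 := by positivity
    have h8 : (|2 * K + 3| + 1) * |Real.log X| ≤ X := by
      have := mul_le_mul_of_nonneg_left hX h7.le
      rw [← mul_assoc, mul_one_div_cancel h7.ne', one_mul] at this
      exact this
    have h9 : (2 * K + 3) * Real.log X ≤ |2 * K + 3| * |Real.log X| := by
      rw [← abs_mul]; exact le_abs_self _
    have h10 : 0 ≤ |Real.log (X : ℝ)| := abs_nonneg _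
    linarith
  obtain ⟨X₀, hX₀⟩ := Filter.eventually_atTop.1 ((h2.and h3).and (Filter.eventually_ge_atTop 3))
  exact ⟨X₀, fun X hX => ⟨(hX₀ X hX).1.2, (hX₀ X hX).1.1, (hX₀ X hX).2⟩⟩

open Classical in
theorem rat_big (hM : MasterT) (hT : Tra) (K : ℝ) (hK : 1 ≤ K) :
    ∃ c : ℝ, 0 < c ∧ ∃ N₀ : ℕ, ∀ N : ℕ, N₀ ≤ N →
    c * N ≤ (((range N).filter (fun j => R1 K j)).card : ℝ) ∧
    c * N ≤ (((range N).filter (fun j => R2 K j)).card : ℝ) := by
  obtain ⟨c0, hc0, X₀, hMX⟩ := hM 1 2 (fun _ => K + 1) 1 (2 * K + 3) one_pos (by linarith)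
    (fun _ => ⟨by linarith, by linarith⟩)
  obtain ⟨c', hc', hTr⟩ := hT c0 (2 * K + 3) hc0 (by linarith)
  obtain ⟨X₁, hX₁⟩ := ev_large K
  obtain ⟨N₀, hN₀⟩ := hTr (max X₀ X₁)
  refine ⟨c', hc', N₀, fun N hN => ?_⟩
  obtain ⟨X, hX, hR⟩ := hN₀ N hN
  have hXa : X₀ ≤ X := (le_max_left _ _).trans hX
  have hXb : X₁ ≤ X := (le_max_right _ _).trans hX
  obtain ⟨hb1, hb2, hb3⟩ := hX₁ X hXb
  have hcount := hMX X hXa
  constructor
  · have h1 := hR (fun q => ∃ j, P j = q ∧ R1 K j) (hcount.trans (by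
      have : ((Ico X (2 * X)).filter (fun n => Good (k := 1) 2 (fun _ => K + 1) 1 (2 * K + 3) X n)).card
          ≤ ((Ico X (2 * X)).filter (fun n => ∃ a ∈ Icc 1 ⌊(2 * K + 3) * Real.log X⌋₊,
            (n + a).Prime ∧ ∃ j, P j = n + a ∧ R1 K j)).card := by
        apply card_le_card
        intro n hn
        rw [mem_filter, mem_Ico] at hn
        rw [mem_filter, mem_Ico]
        exact ⟨hn.1, part1 hK hn.1.1 hn.1.2 hb1 hb2 hb3 hn.2⟩
      exact_mod_cast this))
    refine h1.trans ?_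
    have : ((range N).filter (fun j => ∃ i, P i = P j ∧ R1 K i)).card ≤
        ((range N).filter (fun j => R1 K j)).card := by
      apply card_le_card
      intro j hj
      rw [mem_filter] at hj ⊢
      obtain ⟨hj1, i, hi, hi2⟩ := hj
      rw [P_mono.injective hi] at hi2
      exact ⟨hj1, hi2⟩
    exact_mod_cast this
  · have h1 := hR (fun q => ∃ i, P (i + 1) = q ∧ R2 K i) (hcount.trans (by
      have : ((Ico X (2 * X)).filter (fun n => Good (k := 1) 2 (fun _ => K + 1) 1 (2 * K + 3) X n)).card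
          ≤ ((Ico X (2 * X)).filter (fun n => ∃ a ∈ Icc 1 ⌊(2 * K + 3) * Real.log X⌋₊,
            (n + a).Prime ∧ ∃ i, P (i + 1) = n + a ∧ R2 K i)).card := by
        apply card_le_card
        intro n hn
        rw [mem_filter, mem_Ico] at hn
        rw [mem_filter, mem_Ico]
        exact ⟨hn.1, part2 hK hn.1.1 hn.1.2 hb1 hb2 hb3 hn.2⟩
      exact_mod_cast this))
    refine h1.trans ?_
    have : ((range N).filter (fun j => ∃ i, P (i + 1) = P j ∧ R2 K i)).card ≤
        ((range N).filter (fun j => R2 K j)).card := by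
      apply card_le_card_of_injOn (fun j => j - 1)
      · intro j hj
        simp only [coe_filter, Set.mem_ofPred_eq, mem_range] at hj ⊢
        obtain ⟨hj1, i, hi, hi2⟩ := hj
        have := P_mono.injective hi
        subst this
        exact ⟨by omega, by simpa using hi2⟩
      · intro j hj j' hj' hjj
        simp only [coe_filter, Set.mem_ofPred_eq, mem_range] at hj hj'
        obtain ⟨_, i, hi, _⟩ := hj
        obtain ⟨_, i', hi', _⟩ := hj'
        have h2 := P_mono.injective hi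
        have h3 := P_mono.injective hi'
        simp only at hjj
        omega
    exact_mod_cast this

theorem rat_of (hM : MasterT) (hT : Tra) : Rat2 := by
  classical
  intro K
  obtain ⟨c, hc, N₀, h⟩ := rat_big hM hT (max K 1) (le_max_right _ _)
  refine ⟨c, hc, N₀, fun N hN => ?_⟩
  obtain ⟨h1, h2⟩ := h N hN
  have hmono : ∀ j, (P j : ℝ) ≤ P (j + 1) := fun j => by
    exact_mod_cast (P_mono (Nat.lt_succ_self j)).le
  have hlog : ∀ j, 0 ≤ Real.log (P j) := fun j => Real.log_natCast_nonneg _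
  have hKm : K ≤ max K 1 := le_max_left _ _
  constructor
  · refine h1.trans (Nat.cast_le.2 (card_le_card ?_))
    intro j hj
    rw [mem_filter] at hj ⊢
    refine ⟨hj.1, ?_, ?_⟩
    · exact (mul_le_mul_of_nonneg_right hKm (by have := hmono j; linarith)).trans hj.2.1
    · exact (mul_le_mul_of_nonneg_right hKm (hlog j)).trans hj.2.2
  · refine h2.trans (Nat.cast_le.2 (card_le_card ?_))
    intro j hj
    rw [mem_filter] at hj ⊢
    refine ⟨hj.1, ?_, ?_⟩
    · exact (mul_le_mul_of_nonneg_right hKm (by have := hmono (j + 1); linarith)).trans hj.2.1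
    · exact (mul_le_mul_of_nonneg_right hKm (hlog j)).trans hj.2.2

end Pool.Agent.H30R2.PP
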